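import Mathlib

/-!
# Finitely generated groups of class at most two: residual finiteness modulo normal subgroups

`rf`: in a finitely generated group of nilpotency class at most two every element outside a normal
subgroup is outside a normal subgroup of finite index which contains it.
-/

set_option autoImplicit false

namespace Pool.Agent.H22U.RF30

open Subgroup

/-- The commutators with a fixed element, as a homomorphism into the centre. -/
def com {Q : Type*} [Group Q] (h2 : ∀ a b c : Q, a * b * a⁻¹ * b⁻¹ * c = c * (a * b * a⁻¹ * b⁻¹))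
    (s : Q) : Q →* center Q where
  toFun b := ⟨s * b * s⁻¹ * b⁻¹, mem_center_iff.2 fun g => (h2 s b g).symm⟩
  map_one' := by
    apply Subtype.ext
    simp
  map_mul' b c := by
    apply Subtype.ext
    show s * (b * c) * s⁻¹ * (b * c)⁻¹ = s * b * s⁻¹ * b⁻¹ * (s * c * s⁻¹ * c⁻¹)
    have h := h2 s c b
    calc s * (b * c) * s⁻¹ * (b * c)⁻¹
        = s * b * s⁻¹ * (s * c * s⁻¹ * c⁻¹ * b⁻¹) := by group
      _ = s * b * s⁻¹ * (b⁻¹ * (s * c * s⁻¹ * c⁻¹)) := by rw [h2 s c b⁻¹]
      _ = s * b * s⁻¹ * b⁻¹ * (s * c * s⁻¹ * c⁻¹) := by group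

theorem fin_of_tor {A : Type*} [Group A] [Group.FG A] (hc : ∀ a b : A, a * b = b * a)
    (ht : ∀ a : A, IsOfFinOrder a) : Finite A := by
  let _ : CommGroup A := { (inferInstance : Group A) with mul_comm := hc }
  exact CommGroup.finite_of_fg_isMulTorsion _ ht

/-- A finitely generated group of class at most two with torsion centre is finite. -/
theorem finite_of_center {Q : Type*} [Group Q] [Group.FG Q]
    (h2 : ∀ a b c : Q, a * b * a⁻¹ * b⁻¹ * c = c * (a * b * a⁻¹ * b⁻¹))
    (ht : ∀ z ∈ center Q, IsOfFinOrder z) : Finite Q := by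
  classical
  obtain ⟨S, hS⟩ : (⊤ : Subgroup Q).FG := Group.FG.out
  have key : ∀ s : Q, (centralizer {s}).FiniteIndex := by
    intro s
    let φ := com h2 s
    have hfg : Group.FG φ.range := inferInstance
    have hfin : Finite φ.range := by
      refine fin_of_tor (fun a b => ?_) ?_
      · apply Subtype.ext
        apply Subtype.ext
        exact mem_center_iff.1 b.1.2 a.1.1
      rintro ⟨⟨x, hx⟩, hx2⟩
      have h := ht x hx
      obtain ⟨n, hn, hn2⟩ := isOfFinOrder_iff_pow_eq_one.1 h
      refine isOfFinOrder_iff_pow_eq_one.2 ⟨n, hn, ?_⟩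
      apply Subtype.ext
      apply Subtype.ext
      exact hn2
    have hker : φ.ker.FiniteIndex := inferInstance
    refine Subgroup.finiteIndex_of_le (H := φ.ker) ?_
    intro b hb
    rw [mem_centralizer_singleton_iff]
    have h1 : s * b * s⁻¹ * b⁻¹ = 1 := congrArg Subtype.val (MonoidHom.mem_ker.1 hb)
    have h3 : s * b = b * s := by
      have := mul_inv_eq_one.1 h1
      rw [mul_inv_eq_iff_eq_mul] at this
      exact this
    exact h3.symm
  have hc : (center Q).FiniteIndex := by
    rw [center_eq_iInf hS]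
    exact finiteIndex_iInf' _ fun i _ => key i
  have hfgc : Group.FG (center Q) := inferInstance
  have hfc : Finite (center Q) := by
    refine fin_of_tor (fun a b => Subtype.ext (mem_center_iff.1 b.2 a.1)) ?_
    rintro ⟨x, hx⟩
    obtain ⟨n, hn, hn2⟩ := isOfFinOrder_iff_pow_eq_one.1 (ht x hx)
    exact isOfFinOrder_iff_pow_eq_one.2 ⟨n, hn, Subtype.ext hn2⟩
  have hq : Finite (Q ⧸ center Q) := finite_quotient_of_finiteIndex
  exact Finite.of_subgroup_quotient (center Q)

theorem rf {G : Type*} [Group G] [Group.FG G]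
    (h2 : ∀ a b c : G, a * b * a⁻¹ * b⁻¹ * c = c * (a * b * a⁻¹ * b⁻¹))
    (C : Subgroup G) [C.Normal] (y : G) (hy : y ∉ C) :
    ∃ K : Subgroup G, K.Normal ∧ K.FiniteIndex ∧ C ≤ K ∧ y ∉ K := by
  classical
  obtain ⟨K, hCK, hK⟩ := zorn_le_nonempty₀ {K : Subgroup G | K.Normal ∧ y ∉ K} (by
    intro c hc hchain L hL
    refine ⟨sSup c, ⟨?_, ?_⟩, fun z hz => le_sSup hz⟩
    · constructor
      intro n hn g
      rw [Subgroup.mem_sSup_of_directedOn ⟨L, hL⟩ hchain.directedOn] at hn ⊢
      obtain ⟨M, hM, hnM⟩ := hn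
      exact ⟨M, hM, (hc hM).1.conj_mem n hnM g⟩
    · intro hyc
      rw [Subgroup.mem_sSup_of_directedOn ⟨L, hL⟩ hchain.directedOn] at hyc
      obtain ⟨M, hM, hyM⟩ := hyc
      exact (hc hM).2 hyM) C ⟨inferInstance, hy⟩
  have hKn : K.Normal := hK.1.1
  refine ⟨K, hKn, ?_, hCK, hK.1.2⟩
  have h2' : ∀ a b c : G ⧸ K, a * b * a⁻¹ * b⁻¹ * c = c * (a * b * a⁻¹ * b⁻¹) := by
    intro a b c
    obtain ⟨a, rfl⟩ := QuotientGroup.mk'_surjective K a
    obtain ⟨b, rfl⟩ := QuotientGroup.mk'_surjective K b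
    obtain ⟨c, rfl⟩ := QuotientGroup.mk'_surjective K c
    rw [← map_inv, ← map_inv, ← map_mul, ← map_mul, ← map_mul, ← map_mul, ← map_mul, h2]
  -- every nontrivial central element has `y` among its powers
  have hpow : ∀ z ∈ center (G ⧸ K), z ≠ 1 → (QuotientGroup.mk' K y) ∈ zpowers z := by
    intro z hz hz1
    by_contra hcon
    have hzn : (zpowers z).Normal := by
      constructor
      intro n hn g
      obtain ⟨m, rfl⟩ := mem_zpowers_iff.1 hn
      have hzc : z ^ m ∈ center (G ⧸ K) := zpow_mem hz m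
      rw [mem_center_iff] at hzc
      rw [hzc g, mul_inv_cancel_right]
      exact zpow_mem (mem_zpowers z) m
    have hN : ((zpowers z).comap (QuotientGroup.mk' K)).Normal := hzn.comap _
    have hle : K ≤ (zpowers z).comap (QuotientGroup.mk' K) := by
      intro k hk
      rw [mem_comap]
      have : QuotientGroup.mk' K k = 1 := by
        rw [← MonoidHom.mem_ker, QuotientGroup.ker_mk']
        exact hk
      rw [this]
      exact one_mem _
    have heq := hK.2 (y := (zpowers z).comap (QuotientGroup.mk' K)) ⟨hN, fun h => hcon h⟩ hle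
    obtain ⟨g, hg⟩ := QuotientGroup.mk'_surjective K z
    have hgm : g ∈ (zpowers z).comap (QuotientGroup.mk' K) := by
      rw [mem_comap, hg]
      exact mem_zpowers z
    have hgK : g ∈ K := heq hgm
    apply hz1
    rw [← hg, ← MonoidHom.mem_ker, QuotientGroup.ker_mk']
    exact hgK
  have hy1 : QuotientGroup.mk' K y ≠ 1 := by
    intro h
    rw [← MonoidHom.mem_ker, QuotientGroup.ker_mk'] at h
    exact hK.1.2 h
  have ht : ∀ z ∈ center (G ⧸ K), IsOfFinOrder z := by
    intro z hz
    by_cases hz1 : z = 1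
    · rw [hz1]
      exact IsOfFinOrder.one
    by_contra hinf
    obtain ⟨k, hk⟩ := mem_zpowers_iff.1 (hpow z hz hz1)
    have hk0 : k ≠ 0 := by
      rintro rfl
      rw [zpow_zero] at hk
      exact hy1 hk.symm
    have hne : z ^ (2 * k) ≠ 1 := by
      intro h
      apply hinf
      rw [isOfFinOrder_iff_zpow_eq_one]
      exact ⟨2 * k, by omega, h⟩
    obtain ⟨m, hm⟩ := mem_zpowers_iff.1 (hpow (z ^ (2 * k)) (zpow_mem hz _) hne)
    apply hinf
    rw [isOfFinOrder_iff_zpow_eq_one]
    refine ⟨2 * k * m - k, ?_, ?_⟩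
    · intro h
      have h3 : k * (2 * m - 1) = 0 := by linarith
      rcases mul_eq_zero.1 h3 with h4 | h4
      · exact hk0 h4
      · omega
    · rw [zpow_sub, zpow_mul, hm, hk, mul_inv_cancel]
  have : Group.FG (G ⧸ K) := QuotientGroup.fg K
  have : Finite (G ⧸ K) := finite_of_center h2' ht
  exact finiteIndex_of_finite_quotient

end Pool.Agent.H22U.RF30
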